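import Pool.Agent.Results.MP_3554b5_lc.UnramifiedNorms

/-!
# One formula for all fields with many places with unramified norms

If a field has `m ^ n` pairwise incomparable places whose value groups are not `ℓ`-divisible and
whose residue fields have separable extensions of degree `ℓ`, then one fixed formula (independent of
the field and of `m`) has an `n`-independence pattern of size `m`, and similarly for the tree
property of the second kind.
-/

set_option autoImplicit false

namespace Pool.Agent.Q312.UF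

open Polynomial Pool.Agent.W882.Nip3 Pool.Agent.TH686.NF NNReal
open Pool.Agent.Results.MP_3554b5_lc.UnramifiedNorms

section bad

variable {Γ₀ : Type*} [LinearOrderedCommGroupWithZero Γ₀]

theorem bad_of_val {F : Type} [Field F] (v : Valuation F Γ₀) (g : v.valuationSubring[X])
    (hg : g.Monic) (hirr : Irreducible (g.map (IsLocalRing.residue v.valuationSubring)))
    (hsep : (g.map (IsLocalRing.residue v.valuationSubring)).Separable) {a : F} (ha : a ≠ 0)
    (hdiv : ∀ c, v a ≠ v c ^ g.natDegree) : Bad F g.natDegree := by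
  obtain ⟨G, hG⟩ : ∃ G, G = g.map (algebraMap v.valuationSubring F) := ⟨_, rfl⟩
  have hGi : Irreducible G := by rw [hG]; exact irred_G v g hg hirr
  have hGs : G.Separable := by rw [hG]; exact sep_G v g hg hirr hsep
  have hGm : G.Monic := by rw [hG]; exact hg.map _
  have hGd : G.natDegree = g.natDegree := by rw [hG]; exact hg.natDegree_map _
  let _ : Fact (Irreducible G) := ⟨hGi⟩
  have h1 : FiniteDimensional F (AdjoinRoot G) := hGm.finite_adjoinRoot
  have h2 : Algebra.IsSeparable F (AdjoinRoot G) := isSeparable_adjoinRoot hGi hGs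
  have h3 : Module.finrank F (AdjoinRoot G) = g.natDegree := by
    rw [Module.finrank_eq_card_basis (AdjoinRoot.powerBasisAux' hGm), Fintype.card_fin, hGd]
  refine ⟨AdjoinRoot G, inferInstance, inferInstance, h1, h2, h3, a, ha, ?_⟩
  rintro ⟨z, hz⟩
  have hz0 : z ≠ 0 := by
    intro h
    apply ha
    rw [← hz, h, Algebra.norm_zero]
  obtain ⟨c, -, hc⟩ := val_norm v g hg hirr G hG z hz0
  rw [hz] at hc
  exact hdiv c hc

/-- the completion has an unramified extension whose norm map is not surjective -/
theorem bad_compl {κ : Type} [Field κ] (v : Valuation κ ℝ≥0) {d : ℕ} (hd : 1 ≤ d) {a : κ}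
    (ha : ∀ c, v a ≠ v c ^ d) (L : Type) [Field L]
    [Algebra (IsLocalRing.ResidueField v.valuationSubring) L]
    [Algebra.IsSeparable (IsLocalRing.ResidueField v.valuationSubring) L]
    (hL : Module.finrank (IsLocalRing.ResidueField v.valuationSubring) L = d) :
    Bad (Cp v) d := by
  have hfin : FiniteDimensional (IsLocalRing.ResidueField v.valuationSubring) L :=
    FiniteDimensional.of_finrank_pos (by omega)
  obtain ⟨α, hα⟩ := Field.exists_primitive_element
    (IsLocalRing.ResidueField v.valuationSubring) L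
  set h := minpoly (IsLocalRing.ResidueField v.valuationSubring) α with hh
  have hint : IsIntegral (IsLocalRing.ResidueField v.valuationSubring) α :=
    Algebra.IsIntegral.isIntegral α
  have hm : h.Monic := minpoly.monic hint
  have hi : Irreducible h := minpoly.irreducible hint
  have hs : h.Separable := Algebra.IsSeparable.isSeparable _ α
  have hdeg : h.natDegree = d := by
    rw [← hL, ← IntermediateField.finrank_top', ← hα]
    exact (IntermediateField.adjoin.finrank hint).symm
  have hl : h ∈ lifts (IsLocalRing.residue v.valuationSubring) := by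
    rw [lifts_iff_coeff_lifts]
    intro n
    exact IsLocalRing.residue_surjective _
  obtain ⟨f, hf1, hf2, hf3⟩ := lifts_and_natDegree_eq_and_monic hl hm
  have ht := transfer v (NormedField.valuation (K := Cp v)) (emb v) (val_emb v) (near v) f
    (by rw [hf1]; exact hi) (by rw [hf1]; exact hs)
  have ha0 : a ≠ 0 := by
    rintro rfl
    apply ha 0
    rw [map_zero, zero_pow (by omega)]
  have hgd : (f.map (jj v (NormedField.valuation (K := Cp v)) (emb v) (val_emb v))).natDegree = d := by
    rw [hf3.natDegree_map, hf2, hdeg]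
  have key := bad_of_val (NormedField.valuation (K := Cp v)) _ (hf3.map _) ht.1 ht.2
    (a := emb v a) (by rwa [Ne, map_eq_zero]) (by
      intro c hc
      rw [hgd, val_emb] at hc
      by_cases hc0 : c = 0
      · rw [hc0, map_zero, zero_pow (by omega)] at hc
        exact ha0 (v.zero_iff.1 hc)
      · obtain ⟨x, hx⟩ := near v c hc0
        apply ha x
        rw [hc]
        congr 1
        have h1 : NormedField.valuation (emb v x) = NormedField.valuation c := by
          have e1 : emb v x = c - (c - emb v x) := by ring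
          rw [e1]
          exact Valuation.map_sub_eq_of_lt_left _ hx
        exact h1.symm.trans (val_emb v x))
  rw [hgd] at key
  exact key

theorem badE_of_bad {F : Type} [Field F] {d : ℕ} (h : Bad F d) : BadE F (0 + 1) d :=
  ⟨F, inferInstance, inferInstance, inferInstance, inferInstance, by rw [Module.finrank_self], h⟩

end bad

/-- The place has a value group which is not `ℓ`-divisible and a residue field with a separable
extension of degree `ℓ`. -/
def Good {K : Type} [Field K] (P : ValuedPlace K) (ℓ : ℕ) : Prop :=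
  ¬ P.Divisible ℓ ∧ P.HasExtension ℓ

theorem Good.gt {K : Type} [Field K] {P : ValuedPlace K} {ℓ : ℕ} (hℓ : 1 ≤ ℓ) (h : Good P ℓ) :
    ∃ a, 1 < P.v a :=
  exists_gt_of_not_tame P (D := ℓ) fun ht =>
    ((ht ℓ hℓ le_rfl).1).elim h.1 fun h1 => h1 h.2

theorem Good.bad {K : Type} [Field K] {P : ValuedPlace K} {ℓ : ℕ} (hℓ : 1 ≤ ℓ) (h : Good P ℓ) :
    BadE (Cp P.v) (0 + 1) ℓ := by
  obtain ⟨L, fL, aL, sL, hL⟩ := h.2
  obtain ⟨a, ha⟩ : ∃ a, ∀ c, P.v a ≠ P.v c ^ ℓ := by
    have h2 := h.1
    unfold ValuedPlace.Divisible at h2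
    push Not at h2
    exact h2
  exact badE_of_bad (bad_compl P.v hℓ ha L hL)

theorem small_toPlace {K : Type} [Field K] (P : ValuedPlace K) (h : ∃ a, 1 < P.v a) {x : K}
    (hx : P.Small x) : (toPlace P h).Small x := by
  obtain ⟨h1, h2⟩ := hx
  refine ⟨h1, ?_⟩
  change ‖emb P.v (P.π ⟨x, h1⟩)‖ < 1
  rw [norm_emb]
  exact_mod_cast h2

/-- `N` pairwise incomparable places which are good for `ℓ` -/
def HasPlaces (ℓ N : ℕ) (K : Type) [Field K] : Prop :=
  ∃ P : Fin N → ValuedPlace K, (Pairwise fun i j => (P i).Incomparable (P j)) ∧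
    ∀ i, ¬ (P i).Divisible ℓ ∧ (P i).HasExtension ℓ

theorem HasPlaces.mono {ℓ N M : ℕ} {K : Type} [Field K] (h : HasPlaces ℓ N K) (hMN : M ≤ N) :
    HasPlaces ℓ M K := by
  obtain ⟨P, h1, h2⟩ := h
  exact ⟨fun i => P (Fin.castLE hMN i), fun i j hij => h1 fun h =>
    hij (Fin.castLE_injective hMN h), fun i => h2 _⟩

/-- The places in the form needed for the patterns. -/
theorem HasPlaces.family {ℓ N : ℕ} (hℓ : 1 ≤ ℓ) {K : Type} [Field K] (h : HasPlaces ℓ N K)
    {I : Type} [Fintype I] (hI : Fintype.card I ≤ N) :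
    ∃ (P : I → Place K), (∀ i, BadE (P i).F (0 + 1) ℓ) ∧
      (∀ i, ∃ A : K, A ≠ 0 ∧ mu (P i).O (P i).res A < 1) ∧
      (∀ j i, i ≠ j → ∃ A : K, A ≠ 0 ∧ mu (P j).O (P j).res A < 1 ∧
        1 < mu (P i).O (P i).res A) := by
  obtain ⟨Q, h1, h2⟩ := h.mono hI
  have hgt : ∀ i, ∃ a, 1 < (Q i).v a := fun i => Good.gt hℓ (h2 i)
  let e : I ≃ Fin (Fintype.card I) := Fintype.equivFin I
  refine ⟨fun i => toPlace (Q (e i)) (hgt (e i)), fun i => Good.bad hℓ (h2 (e i)), ?_, ?_⟩
  · intro i
    obtain ⟨x, hx, hs⟩ := (toPlace (Q (e i)) (hgt (e i))).exists_small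
    exact ⟨x, hx, (Place.mu_lt_one_iff _ x).mpr hs⟩
  · intro j i hij
    have hne : e j ≠ e i := fun h => hij (e.injective h).symm
    obtain ⟨x, hx0, h3, h4⟩ := h1 hne
    exact ⟨x, hx0, (Place.mu_lt_one_iff _ x).mpr (small_toPlace _ _ h3),
      (Place.one_lt_mu_iff _ hx0).mpr (small_toPlace _ _ h4)⟩

/-- one formula with the `n`-independence property -/
theorem patN_of_places {ℓ : ℕ} (hℓ : 1 ≤ ℓ) (n m : ℕ) (K : Type) [Field K]
    [FirstOrder.Ring.CompatibleRing K] (h : HasPlaces ℓ (m ^ n) K) : PatN K (fE n ℓ 0) m := by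
  classical
  obtain ⟨P, hbad, hnt, hsep⟩ := h.family hℓ (I := Fin n → Fin m) (by
    rw [Fintype.card_fun, Fintype.card_fin, Fintype.card_fin])
  by_contra hm
  have hdense := dense_inter (fun J => (P J).O) (fun J => (P J).F)
    (fun J => (P J).res) (fun J => (P J).isUnit_of_res_ne_zero) (fun J => (P J).denseRange) hnt
    hsep
  obtain ⟨g, c, x, H, h1, h2, h3⟩ := main_places (fun J => (P J).O) (fun J => (P J).F)
    (fun J => (P J).res) (fun J => (P J).isUnit_of_res_ne_zero) (interO fun J => (P J).O)
    (fun J x hx => hx J) hdense hbad (Y := Fin n × Fin m)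
    (fun y => {J | J y.1 = y.2})
  refine no_pattern_of hm g (fun r i => c (r, i)) x H ?_ ?_ h3
  · intro J r i hJ
    exact h1 J (r, i) hJ
  · intro J r u hu
    exact h2 J (r, J r) rfl u hu

/-- one formula with the tree property of the second kind -/
theorem patT_of_places {ℓ : ℕ} (hℓ : 1 ≤ ℓ) (m : ℕ) (K : Type) [Field K]
    [FirstOrder.Ring.CompatibleRing K] (h : HasPlaces ℓ (m * m) K) : PatT K (fT' ℓ 0) m := by
  classical
  obtain ⟨P, hbad, hnt, hsep⟩ := h.family hℓ (I := Fin m × Fin m) (by
    rw [Fintype.card_prod, Fintype.card_fin])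
  by_contra hm
  have hdense := dense_inter (fun J => (P J).O) (fun J => (P J).F)
    (fun J => (P J).res) (fun J => (P J).isUnit_of_res_ne_zero) (fun J => (P J).denseRange) hnt
    hsep
  obtain ⟨g, c, x, H, h1, h2, h3⟩ := main_places (fun J => (P J).O) (fun J => (P J).F)
    (fun J => (P J).res) (fun J => (P J).isUnit_of_res_ne_zero) (interO fun J => (P J).O)
    (fun J x hx => hx J) hdense hbad (Y := Fin m ⊕ (Fin m × Fin m))
    (fun y => Sum.elim (fun i => {J | J.1 = i}) (fun J' => {J | J = J'}) y)
  refine no_pattern2_of hm g c x H ?_ ?_ ?_ ?_ h3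
  · intro J i hJ
    exact h1 J (Sum.inl i) hJ
  · intro J J' hJ
    exact h1 J (Sum.inr J') hJ
  · intro J u hu
    exact h2 J (Sum.inl J.1) rfl u hu
  · intro J u hu
    exact h2 J (Sum.inr J) rfl u hu

end Pool.Agent.Q312.UF
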