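import Pool.Agent.Q312.UF.Pat
import Pool.Agent.Q312.AE.FG

/-!
# Fields with many places
-/

set_option autoImplicit false

namespace Pool.Agent.Q312.UF

open Polynomial NNReal IsLocalRing IntermediateField Module
open Pool.Agent.Results.MP_3554b5_lc.UnramifiedNorms Pool.Agent.Y562.NN Pool.Agent.Q312.AE

/-- `N` pairwise incomparable valuations which are good for `ℓ` -/
def HasVals (ℓ N : ℕ) (K : Type) [Field K] : Prop :=
  ∃ v : Fin N → Valuation K ℝ≥0, (Pairwise fun i j => ∃ x, v i x < 1 ∧ 1 < v j x) ∧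
    ∀ i, ¬ (ofValuation (v i)).Divisible ℓ ∧ (ofValuation (v i)).HasExtension ℓ

/-- valuations of the residue field as places -/
theorem places_of_residue {ℓ N : ℕ} (K : Type) [Field K]
    (O : ValuationSubring K) (k : Type) [Field k] (π : O →+* k) (hπ : Function.Surjective π)
    (h : HasVals ℓ N k) : HasPlaces ℓ N K := by
  obtain ⟨v, hv, hg⟩ := h
  refine ⟨fun i => ⟨O, k, inferInstance, π, hπ, v i⟩, ?_, fun i => hg i⟩
  intro i j hij
  obtain ⟨x, h1, h2⟩ := hv hij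
  obtain ⟨y, rfl⟩ := hπ x
  have h0 : π y ≠ 0 := by
    intro h
    rw [h, map_zero] at h2
    exact absurd h2 (by simp)
  have h3 := isUnit_of_ne O π hπ y h0
  obtain ⟨u, rfl⟩ := h3
  have h4 : ((u⁻¹ : Oˣ) : O) = (u : O) * (u⁻¹ : Oˣ) * (u⁻¹ : Oˣ) := by
    rw [Units.mul_inv, one_mul]
  have h5 : (((u⁻¹ : Oˣ) : O) : K) = ((u : O) : K)⁻¹ := by
    refine eq_inv_of_mul_eq_one_left ?_
    have h6 : ((u⁻¹ : Oˣ) : O) * (u : O) = 1 := Units.inv_mul u
    exact congrArg Subtype.val h6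
  have h6 : π ((u⁻¹ : Oˣ) : O) = (π (u : O))⁻¹ := by
    refine eq_inv_of_mul_eq_one_left ?_
    rw [← map_mul, Units.inv_mul, map_one]
  refine ⟨((u : O) : K), ?_, ⟨(u : O).2, h1⟩, ?_⟩
  · intro h
    apply h0
    have h7 : (u : O) = 0 := Subtype.ext h
    rw [h7, map_zero]
  · refine ⟨?_, ?_⟩
    · rw [← h5]
      exact ((u⁻¹ : Oˣ) : O).2
    · have h7 : (⟨((u : O) : K)⁻¹, by rw [← h5]; exact ((u⁻¹ : Oˣ) : O).2⟩ : O) =
          ((u⁻¹ : Oˣ) : O) := Subtype.ext h5.symm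
      change v j (π _) < 1
      rw [h7, h6, map_inv₀]
      exact inv_lt_one_of_one_lt₀ h2

/-- The valuations of an algebraic extension. -/
theorem vals_of_primes {ℓ : ℕ} (hℓ : ℓ.Prime) (N : ℕ) (K : Type) [Field K]
    (A k : Type) [CommRing A] [IsDomain A] [IsNoetherianRing A] [Field k] [Algebra A k]
    [IsFractionRing A k] [Algebra k K] [Algebra.IsAlgebraic k K] (hb : BoundedPart ℓ k K)
    (P : Fin N → Ideal A) (hinj : Function.Injective P) (hp : ∀ i, (P i).IsPrime)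
    (h0 : ∀ i, P i ≠ ⊥) (h1 : ∀ i, (P i).height ≤ 1)
    (h2 : ∀ i, HasSepAll (P i).ResidueField ℓ) : HasVals ℓ N K := by
  obtain ⟨L, hL, hLK⟩ := exists_base hb
  obtain ⟨v, hv, hv2⟩ := exists_valuations hℓ.two_le L A k P hinj hp h0 h1 h2
  have halg : Algebra.IsAlgebraic L K := Algebra.IsAlgebraic.tower_top (K := k) L
  have h3 : ∀ i, ∃ w : Valuation K ℝ≥0, (∀ x, w (algebraMap L K x) = v i x) ∧
      (∃ a : K, ∀ c : K, w a ≠ w c ^ ℓ) ∧ (ofValuation w).HasExtension ℓ := by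
    intro i
    obtain ⟨⟨a, ha⟩, hext⟩ := hv2 i
    obtain ⟨w, hw1, hw2, hw3⟩ := exists_extension_val hℓ hLK (v i) a ha hext
    exact ⟨w, hw1, ⟨_, hw2⟩, hw3⟩
  choose w hw1 hw2 hw3 using h3
  refine ⟨w, ?_, fun i => ⟨fun hdiv => ?_, hw3 i⟩⟩
  · intro i j hij
    obtain ⟨x, hx1, hx2⟩ := hv hij
    refine ⟨algebraMap L K x, ?_, ?_⟩
    · rw [hw1]
      exact hx1
    · rw [hw1]
      exact hx2
  · obtain ⟨a, ha⟩ := hw2 i
    obtain ⟨c, hc⟩ := hdiv a
    exact ha c hc

theorem vals_of_dim {ℓ : ℕ} (hℓ : ℓ.Prime) (N : ℕ) (K : Type) [Field K]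
    (A k : Type) [CommRing A] [IsDomain A] [IsNoetherianRing A] [Field k] [Algebra A k]
    [IsFractionRing A k] [Algebra k K] [Algebra.IsAlgebraic k K] (hb : BoundedPart ℓ k K)
    (h : ¬ ringKrullDim A ≤ 1) : HasVals ℓ N K := by
  obtain ⟨Q, hQ, hQ1⟩ := exists_prime_height h
  have h1 := (infinite_primes Q hQ1).sdiff (Set.finite_singleton (⊥ : Ideal A))
  obtain ⟨P, hP1, hP2⟩ := exists_seq _ N (by rw [h1.encard_eq]; exact le_top)
  have hp : ∀ i, (P i).IsPrime := fun i => (hP2 i).1.1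
  refine vals_of_primes hℓ N K A k hb P hP1 hp (fun i => (hP2 i).2) (fun i => (hP2 i).1.2.1)
    (fun i => hasSepAll_of_not_maximal (P i) (fun hmax => ?_) hℓ.two_le)
  have h2 : P i = Q := hmax.eq_of_le hQ.ne_top (hP2 i).1.2.2
  exact hQ1 (by rw [← h2]; exact (hP2 i).1.2.1)

/-- Algebraic extensions of infinite finitely generated fields. -/
theorem vals_of_fg {ℓ : ℕ} (hℓ : ℓ.Prime) (N : ℕ) (K : Type) [Field K]
    (k : Type) [Field k] [Infinite k] [hk : Field.FG k] [Algebra k K] [Algebra.IsAlgebraic k K]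
    (hb : BoundedPart ℓ k K) : HasVals ℓ N K := by
  classical
  obtain ⟨s, hs⟩ := hk.finitely_generated
  let A : Subalgebra ℤ k := Algebra.adjoin ℤ (s : Set k)
  have hft : Algebra.FiniteType ℤ A := (Subalgebra.fg_iff_finiteType A).1
    (Subalgebra.fg_adjoin_finset s)
  have hnoeth : IsNoetherianRing A := Algebra.FiniteType.isNoetherianRing ℤ A
  have hdiv : ∀ z : k, ∃ x y : A, z = algebraMap A k x / algebraMap A k y := by
    intro z
    have h1 : z ∈ Subfield.closure (s : Set k) := by rw [hs]; trivial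
    obtain ⟨x, hx, y, hy, rfl⟩ := Subfield.mem_closure_iff.1 h1
    have h2 : ∀ x, x ∈ Subring.closure (s : Set k) → x ∈ A := by
      intro x hx
      change x ∈ Algebra.adjoin ℤ (s : Set k)
      rw [Algebra.adjoin_int]
      exact hx
    exact ⟨⟨x, h2 x hx⟩, ⟨y, h2 y hy⟩, rfl⟩
  have hfrac : IsFractionRing A k := IsFractionRing.of_field A k hdiv
  have hinf : Infinite A := by
    by_contra hfin
    rw [not_infinite_iff_finite] at hfin
    have h1 : Function.Surjective (fun p : A × A => algebraMap A k p.1 / algebraMap A k p.2) := by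
      intro z
      obtain ⟨x, y, hz⟩ := hdiv z
      exact ⟨(x, y), hz.symm⟩
    have h2 : Finite k := Finite.of_surjective _ h1
    exact not_finite k
  by_cases hdim : ringKrullDim A ≤ 1
  swap
  · exact vals_of_dim hℓ N K A k hb hdim
  rw [ringKrullDim_le_iff_height_le] at hdim
  obtain ⟨P, hP1, hP2⟩ := exists_seq {𝔪 : Ideal A | 𝔪.IsMaximal ∧ 𝔪 ≠ ⊥} N (by
    rw [(infinite_maximal A).encard_eq]
    exact le_top)
  have hp : ∀ i, (P i).IsPrime := fun i => (hP2 i).1.isPrime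
  refine vals_of_primes hℓ N K A k hb P hP1 hp (fun i => (hP2 i).2) (fun i => ?_) (fun i => ?_)
  · have h2 := hdim (hp i)
    exact_mod_cast h2
  · have hm : (P i).IsMaximal := (hP2 i).1
    refine hasSepAll_of_quotient (P i) ℓ fun κ _ f hf => ?_
    have h3 : Algebra.FiniteType ℤ (A ⧸ P i) :=
      hft.of_surjective (Ideal.Quotient.mkₐ ℤ (P i)) Ideal.Quotient.mk_surjective
    let _ : Field (A ⧸ P i) := Ideal.Quotient.field (P i)
    have h4 : Finite (A ⧸ P i) := @finite_field (A ⧸ P i) _ (finiteType_int _ _ _ h3)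
    let _ : Algebra (A ⧸ P i) κ := f.toAlgebra
    have h5 : Module.Finite (A ⧸ P i) κ := hf
    have h6 : Finite κ := Module.finite_of_finite (A ⧸ P i)
    exact hasSep_of_finite κ hℓ.ne_zero

end Pool.Agent.Q312.UF
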